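import Pool.Agent.R343.HalfSum2
import Pool.Agent.R343.CFP3

set_option autoImplicit false

namespace Pool.Agent.Results.MP_54f1ce_nt.CaoInequality

/-- the value of the finite continued fraction `[c₁, c₂, …]` -/
def cfVal : List ℕ → ℚ
  | [] => 0
  | [c] => c
  | c :: d :: l => c + 1 / cfVal (d :: l)

/-- `l` is an expansion of `p / n` with positive partial quotients, the last one being `> 1` -/
def IsExp (p n : ℕ) (l : List ℕ) : Prop :=
  (∀ c ∈ l, 0 < c) ∧ (∃ c ∈ l.getLast?, 1 < c) ∧ cfVal l = (p : ℚ) / n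

/-- `M_p` -/
def M (p : ℕ) : Set ℕ :=
  {n | 0 < n ∧ n < p ∧ ∃ l, IsExp p n l ∧ jacobiSym (n : ℤ) p = (-1) ^ l.length}

/-- `M_p` with a bar -/
def Mbar (p : ℕ) : Set ℕ :=
  {n | 0 < n ∧ n < p ∧ ∃ l, IsExp p n l ∧ jacobiSym (n : ℤ) p = (-1) ^ (l.length + 1)}

open Pool.Agent.R343

theorem cfVal_eq : ∀ l : List ℕ, cfVal l = CFP.cfVal l
  | [] => rfl
  | [_] => rfl
  | c :: d :: l => by
    rw [cfVal, CFP.cfVal, cfVal_eq (d :: l)]

theorem isExp_eq (p n : ℕ) (l : List ℕ) : IsExp p n l ↔ CFP.IsExp p n l := by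
  unfold IsExp CFP.IsExp
  rw [cfVal_eq]

theorem M_eq (p : ℕ) : M p = CFP.MM p 0 := by
  unfold M CFP.MM
  simp only [isExp_eq, add_zero]

theorem Mbar_eq (p : ℕ) : Mbar p = CFP.MM p 1 := by
  unfold Mbar CFP.MM
  simp only [isExp_eq]

theorem two_le (p : ℕ) (hp : 3 < p) (h3 : p % 4 = 3) : 2 ≤ (CFP.MM p 0).ncard := by
  have hodd : Odd p := by rw [Nat.odd_iff]; omega
  have hNZ : NeZero p := ⟨by omega⟩
  rw [CFP.card_zero p hodd (by omega)]
  -- an integer `m < p / 2` with symbol `-1`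
  obtain ⟨m, hm0, hm, hj⟩ : ∃ m : ℕ, 0 < m ∧ 2 * m < p ∧ jacobiSym (m : ℤ) p = -1 := by
    have h1 : jacobiSym ((2 : ℕ) : ℤ) p * jacobiSym (((p - 1) / 2 : ℕ) : ℤ) p = -1 := by
      rw [← jacobiSym.mul_left, ← CFP.jacobi_neg_one p h3, jacobiSym.mod_left,
        jacobiSym.mod_left (-1)]
      congr 1
      have e1 : (((2 : ℕ) : ℤ) * (((p - 1) / 2 : ℕ) : ℤ)) = -1 + (p : ℤ) := by
        have : 2 * ((p - 1) / 2) = p - 1 := by omega
        have e2 : ((2 * ((p - 1) / 2) : ℕ) : ℤ) = ((p - 1 : ℕ) : ℤ) := by rw [this]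
        rw [Nat.cast_mul] at e2
        rw [e2, Nat.cast_sub (by omega)]
        push_cast
        ring
      rw [e1, Int.add_emod_right]
    rcases jacobiSym.trichotomy ((2 : ℕ) : ℤ) p with h | h | h
    · rw [h] at h1
      norm_num at h1
    · rw [h, one_mul] at h1
      exact ⟨(p - 1) / 2, by omega, by omega, h1⟩
    · exact ⟨2, by norm_num, by omega, h⟩
  have hj2 : jacobiSym ((p - m : ℕ) : ℤ) p = 1 := by
    rw [CFP.jacobi_sub p m h3 (by omega), hj]
    norm_num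
  have hcop : ∀ x : ℕ, x < p → (jacobiSym (x : ℤ) p = 1 ∨ jacobiSym (x : ℤ) p = -1) →
      x ∈ CFP.red p := by
    intro x hx h
    unfold CFP.red
    rw [Finset.mem_filter, Finset.mem_range]
    refine ⟨hx, ?_⟩
    by_contra hc
    rw [jacobiSym.eq_zero_iff_not_coprime.2] at h
    · norm_num at h
    · rwa [Int.gcd_natCast_natCast]
  have hsub : ({m, p - m} : Finset ℕ) ⊆ (CFP.red p).filter
      (fun m : ℕ => jacobiSym (m : ℤ) p * CFP.sg p m = -1) := by
    intro x hx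
    rw [Finset.mem_insert, Finset.mem_singleton] at hx
    rw [Finset.mem_filter]
    rcases hx with rfl | rfl
    · refine ⟨hcop x (by omega) (Or.inr hj), ?_⟩
      unfold CFP.sg
      rw [hj, if_pos hm]
      norm_num
    · refine ⟨hcop _ (by omega) (Or.inl hj2), ?_⟩
      unfold CFP.sg
      rw [hj2, if_neg (by omega)]
      norm_num
  have hcard : ({m, p - m} : Finset ℕ).card = 2 := by
    rw [Finset.card_pair]
    omega
  rw [← hcard]
  exact Finset.card_le_card hsub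

/-- **Q1 (Cao's conjecture).** -/
theorem result (p : ℕ) (hp : 3 < p) (h3 : p % 4 = 3) :
    (∀ n, 0 < n → n < p → ∃! l, IsExp p n l) ∧
    2 ≤ (M p).ncard ∧ (M p).ncard ≤ (Mbar p).ncard := by
  have hodd : Odd p := by rw [Nat.odd_iff]; omega
  refine ⟨?_, ?_, ?_⟩
  · intro n h0 h1
    obtain ⟨l, hl, hu⟩ := CFP.existsUnique p n h0 h1
    exact ⟨l, (isExp_eq p n l).2 hl, fun l' hl' => hu l' ((isExp_eq p n l').1 hl')⟩
  · rw [M_eq]
    exact two_le p hp h3
  · rw [M_eq, Mbar_eq]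
    have h1 := CFP.sub_card p hodd (by omega)
    have h2 := CFP.S_nonneg p h3
    rw [CFP.jacobi_neg_one p h3] at h1
    omega

end Pool.Agent.Results.MP_54f1ce_nt.CaoInequality
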